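import Pool.Agent.H71.AAE.Defs

/-!
# Project AAE, module G0: monic elements for generic shears
-/

set_option autoImplicit false

open Polynomial

namespace Pool.Agent.H71.AAE

universe u

/-- algebraic dependence -/
theorem exists_dep {k : Type u} [Field k] {N m : ℕ} (hNm : m ≤ N)
    (f : Fin (N + 1) → MvPolynomial (Fin m) k) :
    ∃ h : MvPolynomial (Fin (N + 1)) k, h ≠ 0 ∧ MvPolynomial.aeval f h = 0 := by
  have hna : ¬ AlgebraicIndependent k f := by
    intro hf
    have h1 := hf.lift_cardinalMk_le_trdeg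
    rw [MvPolynomial.trdeg_of_isDomain] at h1
    simp only [Cardinal.mk_fintype, Fintype.card_fin, Cardinal.lift_natCast] at h1
    have h2 : N + 1 ≤ m := by exact_mod_cast h1
    omega
  rw [algebraicIndependent_iff] at hna
  push Not at hna
  obtain ⟨p, hp, hp0⟩ := hna
  exact ⟨p, hp0, hp⟩

theorem natDegree_coeff_prod {R ι : Type*} [CommRing R] (s : Finset ι) (f : ι → R[X]) (d : ι → ℕ)
    (h : ∀ i ∈ s, (f i).natDegree ≤ d i) :
    (∏ i ∈ s, f i).natDegree ≤ ∑ i ∈ s, d i ∧
      (∏ i ∈ s, f i).coeff (∑ i ∈ s, d i) = ∏ i ∈ s, (f i).coeff (d i) := by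
  classical
  induction s using Finset.induction_on with
  | empty => simp
  | insert a s ha ih =>
    rw [Finset.prod_insert ha, Finset.sum_insert ha, Finset.prod_insert ha]
    obtain ⟨ih1, ih2⟩ := ih fun i hi => h i (Finset.mem_insert_of_mem hi)
    have ha' := h a (Finset.mem_insert_self a s)
    refine ⟨Polynomial.natDegree_mul_le_of_le ha' ih1, ?_⟩
    rw [Polynomial.coeff_mul_add_eq_of_natDegree_le ha' ih1, ih2]

/-- substitution undoing the shear -/
noncomputable def subs {k : Type u} [Field k] {N : ℕ} (lam : Fin N × Fin 2 → k) :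
    Fin (N + 1) → (MvPolynomial (Fin N) k)[X] :=
  Fin.cons X fun i => C (MvPolynomial.X i) - C (MvPolynomial.C (lam (i, 0))) * X -
    C (MvPolynomial.C (lam (i, 1))) * X ^ 2

/-- the weights -/
def wts {N : ℕ} : Fin (N + 1) → ℕ := Fin.cons 1 fun _ => 2

/-- the leading coefficients -/
noncomputable def lcs {k : Type u} [Field k] {N : ℕ} : Fin (N + 1) → MvPolynomial (Fin N × Fin 2) k :=
  Fin.cons 1 fun i => - MvPolynomial.X (i, 1)

theorem subs_natDegree {k : Type u} [Field k] {N : ℕ} (lam : Fin N × Fin 2 → k) (i : Fin (N + 1)) :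
    (subs lam i).natDegree ≤ wts i := by
  refine Fin.cases ?_ (fun i => ?_) i
  · simp [subs, wts]
  · simp only [subs, wts, Fin.cons_succ]
    compute_degree

theorem subs_coeff {k : Type u} [Field k] {N : ℕ} (lam : Fin N × Fin 2 → k) (i : Fin (N + 1)) :
    (subs lam i).coeff (wts i) = MvPolynomial.C (MvPolynomial.eval lam (lcs i)) := by
  refine Fin.cases ?_ (fun i => ?_) i
  · simp [subs, wts, lcs]
  · simp only [subs, wts, lcs, Fin.cons_succ]
    simp

theorem shear_subs {k : Type u} [Field k] {N m : ℕ} (f : Fin (N + 1) → MvPolynomial (Fin m) k)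
    (lam : Fin N × Fin 2 → k) (i : Fin (N + 1)) : shear f lam (subs lam i) = f i := by
  have hX : shear f lam X = f 0 := by
    change Polynomial.eval₂ _ (f 0) X = f 0
    exact Polynomial.eval₂_X _ _
  have hC : ∀ ρ : MvPolynomial (Fin N) k, shear f lam (C ρ) = MvPolynomial.aeval (fun i =>
      f i.succ + MvPolynomial.C (lam (i, 0)) * f 0 + MvPolynomial.C (lam (i, 1)) * f 0 ^ 2) ρ := by
    intro ρ
    change Polynomial.eval₂ _ (f 0) (C ρ) = _
    rw [Polynomial.eval₂_C]
    rfl
  refine Fin.cases ?_ (fun i => ?_) i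
  · simp only [subs, Fin.cons_zero, hX]
  · simp only [subs, Fin.cons_succ, map_sub, map_mul, map_pow, hX, hC, MvPolynomial.aeval_X,
      MvPolynomial.aeval_C, MvPolynomial.algebraMap_eq]
    ring

/-- the weight of a monomial -/
def wgt {N : ℕ} (s : Fin (N + 1) →₀ ℕ) : ℕ := ∑ i, s i * wts i

theorem mono_subs {k : Type u} [Field k] {N : ℕ} (lam : Fin N × Fin 2 → k)
    (s : Fin (N + 1) →₀ ℕ) :
    (∏ i, subs lam i ^ s i).natDegree ≤ wgt s ∧ (∏ i, subs lam i ^ s i).coeff (wgt s) =
      MvPolynomial.C (MvPolynomial.eval lam (∏ i, lcs i ^ s i)) := by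
  obtain ⟨h1, h2⟩ := natDegree_coeff_prod Finset.univ (fun i => subs lam i ^ s i)
    (fun i => s i * wts i) (fun i _ => Polynomial.natDegree_pow_le_of_le _ (subs_natDegree lam i))
  refine ⟨h1, ?_⟩
  unfold wgt
  rw [h2, map_prod, map_prod]
  refine Finset.prod_congr rfl fun i _ => ?_
  rw [Polynomial.coeff_pow_of_natDegree_le (subs_natDegree lam i), subs_coeff, map_pow, map_pow]

theorem prod_lcs {k : Type u} [Field k] {N : ℕ} (s : Fin (N + 1) →₀ ℕ) :
    ∏ i, (lcs i : MvPolynomial (Fin N × Fin 2) k) ^ s i =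
      MvPolynomial.monomial (∑ i : Fin N, Finsupp.single (i, (1 : Fin 2)) (s i.succ))
        (∏ i : Fin N, (-1 : k) ^ s i.succ) := by
  rw [Fin.prod_univ_succ]
  simp only [lcs, Fin.cons_zero, one_pow, one_mul, Fin.cons_succ]
  have h : ∀ i : Fin N, (-MvPolynomial.X (i, (1 : Fin 2)) : MvPolynomial (Fin N × Fin 2) k) ^
      s i.succ = MvPolynomial.monomial (Finsupp.single (i, (1 : Fin 2)) (s i.succ))
        ((-1 : k) ^ s i.succ) := by
    intro i
    rw [neg_pow, MvPolynomial.X_pow_eq_monomial, ← MvPolynomial.C_1, ← MvPolynomial.C_neg,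
      ← MvPolynomial.C_pow, MvPolynomial.C_mul_monomial, mul_one]
  rw [Finset.prod_congr rfl fun i _ => h i]
  generalize (Finset.univ : Finset (Fin N)) = t
  classical
  induction t using Finset.induction_on with
  | empty => simp
  | insert a t ha ih =>
    rw [Finset.prod_insert ha, Finset.sum_insert ha, Finset.prod_insert ha, ih,
      MvPolynomial.monomial_mul]

theorem expo_inj {N : ℕ} {s s' : Fin (N + 1) →₀ ℕ} (hw : wgt s = wgt s')
    (h : (∑ i : Fin N, Finsupp.single (i, (1 : Fin 2)) (s i.succ)) =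
      ∑ i : Fin N, Finsupp.single (i, (1 : Fin 2)) (s' i.succ)) : s = s' := by
  classical
  have h1 : ∀ i : Fin N, s i.succ = s' i.succ := by
    intro i
    have := DFunLike.congr_fun h (i, (1 : Fin 2))
    simpa [Finsupp.finsetSum_apply, Finsupp.single_apply] using this
  have h0 : s 0 = s' 0 := by
    unfold wgt at hw
    rw [Fin.sum_univ_succ, Fin.sum_univ_succ] at hw
    simp only [h1, wts, Fin.cons_zero, Fin.cons_succ] at hw
    omega
  ext i
  refine Fin.cases h0 (fun i => h1 i) i

theorem generic_monic {k : Type u} [Field k] {N m : ℕ} (hNm : m ≤ N)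
    (f : Fin (N + 1) → MvPolynomial (Fin m) k) :
    ∃ P : MvPolynomial (Fin N × Fin 2) k, P ≠ 0 ∧ ∀ lam : Fin N × Fin 2 → k,
      MvPolynomial.eval lam P ≠ 0 → ∃ h : (MvPolynomial (Fin N) k)[X], h.Monic ∧
        shear f lam h = 0 := by
  classical
  obtain ⟨h, hh0, hh⟩ := exists_dep hNm f
  have hne : h.support.Nonempty := MvPolynomial.support_nonempty.mpr hh0
  obtain ⟨s0, hs0, hmax⟩ := Finset.exists_max_image h.support wgt hne
  refine ⟨∑ s ∈ h.support.filter (fun s => wgt s = wgt s0), MvPolynomial.C (h.coeff s) *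
    ∏ i, lcs i ^ s i, ?_, ?_⟩
  · intro hP
    have h1 := congrArg (MvPolynomial.coeff
      (∑ i : Fin N, Finsupp.single (i, (1 : Fin 2)) (s0 i.succ))) hP
    rw [MvPolynomial.coeff_sum, MvPolynomial.coeff_zero,
      Finset.sum_eq_single s0] at h1
    · rw [prod_lcs, MvPolynomial.coeff_C_mul, MvPolynomial.coeff_monomial, if_pos rfl] at h1
      rcases mul_eq_zero.mp h1 with h2 | h2
      · exact (MvPolynomial.mem_support_iff.mp hs0) h2
      · rw [Finset.prod_eq_zero_iff] at h2
        obtain ⟨i, _, hi⟩ := h2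
        exact pow_ne_zero _ (neg_ne_zero.mpr one_ne_zero) hi
    · intro s hs hss
      rw [prod_lcs, MvPolynomial.coeff_C_mul, MvPolynomial.coeff_monomial, if_neg, mul_zero]
      intro heq
      exact hss (expo_inj (Finset.mem_filter.mp hs).2 heq)
    · intro hns
      exact (hns (Finset.mem_filter.mpr ⟨hs0, rfl⟩)).elim
  · intro lam hlam
    set H : (MvPolynomial (Fin N) k)[X] := MvPolynomial.aeval (subs lam) h with hH
    have hHsum : H = ∑ s ∈ h.support, C (MvPolynomial.C (h.coeff s)) * ∏ i, subs lam i ^ s i := by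
      rw [hH, MvPolynomial.aeval_def, MvPolynomial.eval₂_eq']
      rfl
    have hdeg : H.natDegree ≤ wgt s0 := by
      rw [hHsum]
      refine Polynomial.natDegree_sum_le_of_forall_le _ _ fun s hs => ?_
      refine (Polynomial.natDegree_C_mul_le _ _).trans ((mono_subs lam s).1.trans (hmax s hs))
    have hcoef : H.coeff (wgt s0) = MvPolynomial.C (MvPolynomial.eval lam
        (∑ s ∈ h.support.filter (fun s => wgt s = wgt s0), MvPolynomial.C (h.coeff s) *
          ∏ i, lcs i ^ s i)) := by
      rw [hHsum, Polynomial.finsetSum_coeff, map_sum, map_sum, Finset.sum_filter]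
      refine Finset.sum_congr rfl fun s hs => ?_
      rw [Polynomial.coeff_C_mul]
      split_ifs with hw
      · rw [← hw, (mono_subs lam s).2, map_mul, map_mul, MvPolynomial.eval_C]
      · rw [Polynomial.coeff_eq_zero_of_natDegree_lt
          ((mono_subs lam s).1.trans_lt (lt_of_le_of_ne (hmax s hs) hw)), mul_zero]
    set c := MvPolynomial.eval lam (∑ s ∈ h.support.filter (fun s => wgt s = wgt s0),
      MvPolynomial.C (h.coeff s) * ∏ i, lcs i ^ s i) with hc
    refine ⟨C (MvPolynomial.C c⁻¹) * H, ?_, ?_⟩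
    · refine Polynomial.monic_of_natDegree_le_of_coeff_eq_one (wgt s0)
        ((Polynomial.natDegree_C_mul_le _ _).trans hdeg) ?_
      rw [Polynomial.coeff_C_mul, hcoef, ← MvPolynomial.C_mul, inv_mul_cancel₀ hlam,
        MvPolynomial.C_1]
    · rw [map_mul]
      have : shear f lam H = 0 := by
        rw [hH]
        have e : (shear f lam).comp (MvPolynomial.aeval (subs lam)) = MvPolynomial.aeval f := by
          ext i : 1
          simp only [AlgHom.comp_apply, MvPolynomial.aeval_X]
          exact shear_subs f lam i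
        have e2 := DFunLike.congr_fun e h
        rw [AlgHom.comp_apply, hh] at e2
        exact e2
      rw [this, mul_zero]

end Pool.Agent.H71.AAE
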