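import Pool.Agent.H71.AAE.Defs

/-!
# Project AAE, module P: patching
-/

set_option autoImplicit false

open Polynomial

namespace Pool.Agent.H71.AAE

universe u

/-- the statement of module H -/
def MonicRow : Prop :=
  ∀ (C : Type u) [CommRing C] [IsDomain C] (r : ℕ) (v : Fin (r + 3) → C[X]) (i₀ : Fin (r + 3)),
    (v i₀).Monic → Ideal.span (Set.range v) = ⊤ →
    ∃ G G' : Matrix (Fin (r + 3)) (Fin (r + 3)) C[X][X], G * G' = 1 ∧ G' * G = 1 ∧
      G.map (eval 0) = 1 ∧ Matrix.vecMul v (G.map (eval 1)) = Pi.single 0 1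

section

variable {R : Type u} [CommRing R] (s : R)

/-- the map `R[X] → R_s[X]` -/
noncomputable abbrev io : R[X] →+* (Localization.Away s)[X] :=
  Polynomial.mapRingHom (algebraMap R (Localization.Away s))

theorem denom (p : (Localization.Away s)[X]) :
    ∀ᶠ K in Filter.atTop, io s (C (s ^ K)) * p ∈ (io s).range := by
  induction p using Polynomial.induction_on' with
  | add p q hp hq =>
    filter_upwards [hp, hq] with K h1 h2
    rw [mul_add]
    exact add_mem h1 h2
  | monomial n c =>
    obtain ⟨m, a, ha⟩ := IsLocalization.Away.surj s c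
    rw [Filter.eventually_atTop]
    refine ⟨m, fun K hK => ?_⟩
    refine ⟨monomial n (s ^ (K - m) * a), ?_⟩
    rw [Polynomial.coe_mapRingHom, Polynomial.map_monomial, Polynomial.map_C,
      Polynomial.C_mul_monomial]
    congr 1
    rw [map_mul, ← ha, map_pow, map_pow]
    have : (algebraMap R (Localization.Away s)) s ^ K =
        (algebraMap R (Localization.Away s)) s ^ (K - m) *
          (algebraMap R (Localization.Away s)) s ^ m := by
      rw [← pow_add, Nat.sub_add_cancel hK]
    rw [this]
    ring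

end

section

variable {R : Type u} [CommRing R]

theorem quillen (x y s : R) (hs : s = x * y) (P : (Localization.Away s)[X][X])
    (h0 : P.eval 0 ∈ (io s).range) :
    ∀ᶠ K in Filter.atTop, ∀ a : R,
      io s (C (x ^ K)) * P.eval (io s (C (y ^ K * a))) ∈ (io s).range := by
  have h1 : ∀ᶠ K in Filter.atTop, ∀ i ∈ Finset.range (P.natDegree + 1),
      io s (C (s ^ K)) * P.coeff i ∈ (io s).range := by
    rw [Filter.eventually_all_finset]
    intro i _
    exact denom s _
  filter_upwards [h1] with K hK a
  rw [Polynomial.eval_eq_sum_range, Finset.mul_sum]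
  refine Subring.sum_mem _ fun i hi => ?_
  rcases Nat.eq_zero_or_pos i with rfl | hpos
  · rw [pow_zero, mul_one]
    refine Subring.mul_mem _ ⟨_, rfl⟩ ?_
    rwa [← Polynomial.coeff_zero_eq_eval_zero] at h0
  · have h2 := hK i hi
    have e : io s (C (x ^ K)) * (P.coeff i * io s (C (y ^ K * a)) ^ i) =
        (io s (C (s ^ K)) * P.coeff i) * io s (C (y ^ (K * (i - 1)) * a ^ i)) := by
      have e2 : x ^ K * (y ^ K * a) ^ i = s ^ K * (y ^ (K * (i - 1)) * a ^ i) := by
        obtain ⟨j, rfl⟩ : ∃ j, i = j + 1 := ⟨i - 1, by omega⟩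
        rw [hs, Nat.add_sub_cancel]
        ring
      have e3 := congrArg (fun z => io s (C z)) e2
      simp only [map_mul, map_pow] at e3 ⊢
      linear_combination (P.coeff i) * e3
    rw [e]
    exact Subring.mul_mem _ h2 ⟨_, rfl⟩

/-- evaluation of matrices -/
noncomputable abbrev evm {A : Type u} [CommRing A] {n : Type} [Fintype n] [DecidableEq n] (z : A) :
    Matrix n n A[X] →+* Matrix n n A := (evalRingHom z).mapMatrix

theorem quillen_mat {n : Type} [Fintype n] [DecidableEq n] (x y s : R) (hs : s = x * y)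
    (P : Matrix n n (Localization.Away s)[X][X]) (h0 : evm 0 P = 1) :
    ∀ᶠ K in Filter.atTop, ∀ a : R, ∃ M : Matrix n n R[X], (io s).mapMatrix M =
      io s (C (x ^ K)) • evm (io s (C (y ^ K * a))) P := by
  have h1 : ∀ᶠ K in Filter.atTop, ∀ i j : n, ∀ a : R,
      io s (C (x ^ K)) * (P i j).eval (io s (C (y ^ K * a))) ∈ (io s).range := by
    rw [Filter.eventually_all]
    intro i
    rw [Filter.eventually_all]
    intro j
    refine quillen x y s hs (P i j) ?_
    have h2 : (P i j).eval 0 = (1 : Matrix n n (Localization.Away s)[X]) i j := by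
      rw [← h0]
      rfl
    rw [h2, Matrix.one_apply]
    split_ifs
    · exact Subring.one_mem _
    · exact Subring.zero_mem _
  filter_upwards [h1] with K hK a
  choose M hM using fun i j => hK i j a
  refine ⟨Matrix.of M, ?_⟩
  ext1 i j
  change io s (M i j) = _
  rw [hM]
  rfl

end

/-- transport of a vector-matrix product along a ring homomorphism -/
theorem map_vecMul {A B : Type u} [CommRing A] [CommRing B] (f : A →+* B) {n : Type} [Fintype n]
    [DecidableEq n] (v : n → A) (M : Matrix n n A) :
    Matrix.vecMul (fun i => f (v i)) (f.mapMatrix M) = fun j => f (Matrix.vecMul v M j) := by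
  funext j
  simp only [Matrix.vecMul, dotProduct, map_sum, map_mul, RingHom.mapMatrix_apply,
    Matrix.map_apply]

theorem vecMul_mem_span {A : Type u} [CommRing A] {n : Type} [Fintype n] (v : n → A)
    (M : Matrix n n A) (j : n) : Matrix.vecMul v M j ∈ Ideal.span (Set.range v) := by
  simp only [Matrix.vecMul, dotProduct]
  refine Ideal.sum_mem _ fun i _ => ?_
  exact Ideal.mul_mem_right _ _ (Ideal.subset_span ⟨i, rfl⟩)

theorem patch_of (H : MonicRow.{u}) {R : Type u} [CommRing R] [IsDomain R] {r : ℕ} (I : Ideal R[X])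
    (v : Fin (r + 3) → R[X]) (hv : ∀ i, v i ∈ I) (i₀ : Fin (r + 3)) (hmonic : (v i₀).Monic)
    (ν : R) (hν : C ν ∈ I) (h : ∀ x ∈ I, C (1 + ν) * x ∈ Ideal.span (Set.range v)) :
    ∃ w : Fin (r + 3) → R[X], Ideal.span (Set.range w) = I := by
  have hvI : Ideal.span (Set.range v) ≤ I := by
    rw [Ideal.span_le]
    rintro _ ⟨i, rfl⟩
    exact hv i
  by_cases hν0 : ν = 0
  · refine ⟨v, le_antisymm hvI fun x hx => ?_⟩
    have := h x hx
    rwa [hν0, add_zero, C_1, one_mul] at this
  by_cases hF0 : 1 + ν = 0
  · refine ⟨fun _ => 1, ?_⟩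
    have hI : I = ⊤ := by
      rw [Ideal.eq_top_iff_one]
      have h1 : ν = -1 := by linear_combination hF0
      rw [h1, C_neg, C_1] at hν
      simpa using I.neg_mem hν
    rw [hI, Ideal.eq_top_iff_one]
    exact Ideal.subset_span ⟨0, rfl⟩
  -- the localisation
  set F : R := 1 + ν with hF
  obtain ⟨s, hs1, hs2⟩ : ∃ s : R, s = ν * F ∧ s = F * ν := ⟨ν * F, rfl, mul_comm _ _⟩
  have hs0 : s ≠ 0 := by rw [hs1]; exact mul_ne_zero hν0 hF0
  have hdom : IsDomain (Localization.Away s) := Localization.Away.isDomain hs0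
  have hinjA : Function.Injective (algebraMap R (Localization.Away s)) :=
    IsLocalization.injective _ (powers_le_nonZeroDivisors_of_noZeroDivisors hs0)
  have hinj : Function.Injective (io s) := Polynomial.map_injective _ hinjA
  have hsu : IsUnit (io s (C s)) := by
    rw [Polynomial.coe_mapRingHom, Polynomial.map_C]
    exact (IsLocalization.Away.algebraMap_isUnit (S := Localization.Away s) s).map C
  -- the row over the localisation
  have hmem : C s ∈ Ideal.span (Set.range v) := by
    rw [hs2, C_mul]
    exact h _ hν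
  have hmapspan : ∀ x ∈ Ideal.span (Set.range v),
      io s x ∈ Ideal.span (Set.range fun i => io s (v i)) := by
    intro x hx
    have h1 : io s x ∈ (Ideal.span (Set.range v)).map (io s) := Ideal.mem_map_of_mem _ hx
    rw [Ideal.map_span, ← Set.range_comp] at h1
    exact h1
  obtain ⟨G, G', hGG', hG'G, hG0, hG1⟩ := H (Localization.Away s) r (fun i => io s (v i)) i₀
    (hmonic.map _) (by
      exact Ideal.eq_top_of_isUnit_mem _ (hmapspan _ hmem) hsu)
  change evm 0 G = 1 at hG0
  change Matrix.vecMul (fun i => io s (v i)) (evm 1 G) = _ at hG1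
  have hG'0 : evm 0 G' = 1 := by
    have := congrArg (evm 0) hGG'
    rwa [map_mul, map_one, hG0, one_mul] at this
  have hGG : ∀ z, evm z G * evm z G' = 1 := fun z => by rw [← map_mul, hGG', map_one]
  have hG'G2 : ∀ z, evm z G' * evm z G = 1 := fun z => by rw [← map_mul, hG'G, map_one]
  -- the second pair of matrices
  set P1 : Matrix (Fin (r + 3)) (Fin (r + 3)) (Localization.Away s)[X][X] :=
    (C : (Localization.Away s)[X] →+* _).mapMatrix (evm 1 G) *
      (compRingHom (1 + X)).mapMatrix G' with hP1
  set P2 : Matrix (Fin (r + 3)) (Fin (r + 3)) (Localization.Away s)[X][X] :=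
    (compRingHom (1 + X)).mapMatrix G *
      (C : (Localization.Away s)[X] →+* _).mapMatrix (evm 1 G') with hP2
  have hevC : ∀ (z : (Localization.Away s)[X])
      (M : Matrix (Fin (r + 3)) (Fin (r + 3)) (Localization.Away s)[X]),
      evm z ((C : (Localization.Away s)[X] →+* _).mapMatrix M) = M := by
    intro z M
    ext1 i j
    simp [evm]
  have hevcomp : ∀ (z : (Localization.Away s)[X])
      (M : Matrix (Fin (r + 3)) (Fin (r + 3)) (Localization.Away s)[X][X]),
      evm z ((compRingHom (1 + X)).mapMatrix M) = evm (1 + z) M := by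
    intro z M
    ext1 i j
    simp [evm, Polynomial.eval_comp]
  have hP1e : ∀ z, evm z P1 = evm 1 G * evm (1 + z) G' := by
    intro z
    rw [hP1, map_mul, hevC, hevcomp]
  have hP2e : ∀ z, evm z P2 = evm (1 + z) G * evm 1 G' := by
    intro z
    rw [hP2, map_mul, hevC, hevcomp]
  have hP10 : evm 0 P1 = 1 := by rw [hP1e, add_zero, hGG]
  have hP20 : evm 0 P2 = 1 := by rw [hP2e, add_zero, hGG]
  obtain ⟨K, hK1, hK2, hK3, hK4, hKpos⟩ :=
    ((quillen_mat ν F s hs1 G hG0).and ((quillen_mat ν F s hs1 G' hG'0).and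
      ((quillen_mat F ν s hs2 P1 hP10).and ((quillen_mat F ν s hs2 P2 hP20).and
        (Filter.eventually_ge_atTop 1))))).exists
  have hcop : IsCoprime (F ^ K) (ν ^ K) := by
    refine IsCoprime.pow ⟨1, -1, ?_⟩
    rw [hF]; ring
  obtain ⟨a, b, hab⟩ := hcop
  set c := io s (C (F ^ K * a)) with hc
  have hc2 : c = 1 + io s (C (ν ^ K * (-b))) := by
    have e : F ^ K * a = 1 + ν ^ K * (-b) := by linear_combination hab
    rw [hc, e, C_add, C_1, map_add, map_one]
  obtain ⟨M1, hM1⟩ := hK1 a
  obtain ⟨M2, hM2⟩ := hK2 a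
  obtain ⟨M3, hM3⟩ := hK3 (-b)
  obtain ⟨M4, hM4⟩ := hK4 (-b)
  rw [hP1e, ← hc2] at hM3
  rw [hP2e, ← hc2] at hM4
  rw [← hc] at hM1 hM2
  -- the new row
  set w' : Fin (r + 3) → (Localization.Away s)[X] :=
    Matrix.vecMul (Pi.single 0 1) (evm c G') with hw'
  have hw1 : Matrix.vecMul (fun i => io s (v i)) (evm 1 G * evm c G') = w' := by
    rw [← Matrix.vecMul_vecMul, hG1]
  have hu : ∀ j, io s (Matrix.vecMul v M3 j) = io s (C (F ^ K)) * w' j := by
    intro j
    have e := congrFun (map_vecMul (io s) v M3) j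
    rw [← e, hM3, Matrix.vecMul_smul, hw1]
    rfl
  have ht : ∀ j, io s (M2 0 j) = io s (C (ν ^ K)) * w' j := by
    intro j
    have e := congrFun (congrFun hM2 0) j
    change io s (M2 0 j) = io s (C (ν ^ K)) * evm c G' 0 j at e
    rw [e, hw', Matrix.single_one_vecMul]
    rfl
  set w : Fin (r + 3) → R[X] := fun j => C a * Matrix.vecMul v M3 j + C b * M2 0 j with hw
  have hww : ∀ j, io s (w j) = w' j := by
    intro j
    rw [hw]
    simp only [map_add, map_mul, hu, ht]
    have e := congrArg (fun z => io s (C z)) hab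
    simp only [map_add, map_mul, map_one] at e
    linear_combination (w' j) * e
  have hFw : ∀ j, C (F ^ K) * w j = Matrix.vecMul v M3 j := by
    intro j
    apply hinj
    rw [map_mul, hww, hu]
  have hone : ∀ x : R[X], x = C a * (C (F ^ K) * x) + C b * (C (ν ^ K) * x) := by
    intro x
    have e := congrArg (fun z => (C z : R[X])) hab
    simp only [C_add, C_mul, C_1] at e
    linear_combination (-x) * e
  have hνK : C (ν ^ K) ∈ I := by
    obtain ⟨K', rfl⟩ : ∃ K', K = K' + 1 := ⟨K - 1, by omega⟩
    rw [pow_succ, C_mul]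
    exact Ideal.mul_mem_left _ _ hν
  refine ⟨w, le_antisymm ?_ ?_⟩
  · rw [Ideal.span_le]
    rintro _ ⟨j, rfl⟩
    change w j ∈ I
    rw [hone (w j), hFw]
    exact I.add_mem (I.mul_mem_left _ (hvI (vecMul_mem_span v M3 j)))
      (I.mul_mem_left _ (I.mul_mem_right _ hνK))
  · have hFv : ∀ i, C (F ^ K) * v i ∈ Ideal.span (Set.range w) := by
      intro i
      have e1 : Matrix.vecMul w' (evm c G * evm 1 G') = fun i => io s (v i) := by
        rw [← hw1, Matrix.vecMul_vecMul]
        have : evm 1 G * evm c G' * (evm c G * evm 1 G') = 1 := by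
          calc evm 1 G * evm c G' * (evm c G * evm 1 G')
              = evm 1 G * (evm c G' * evm c G) * evm 1 G' := by simp only [mul_assoc]
            _ = 1 := by rw [hG'G2, mul_one, hGG]
        rw [this, Matrix.vecMul_one]
      have e2 : io s (Matrix.vecMul w M4 i) = io s (C (F ^ K) * v i) := by
        have e := congrFun (map_vecMul (io s) w M4) i
        rw [← e, hM4, Matrix.vecMul_smul]
        have e3 : (fun i => io s (w i)) = w' := funext hww
        rw [e3, e1, map_mul]
        rfl
      rw [← hinj e2]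
      exact vecMul_mem_span w M4 i
    have hνw : C (ν ^ K) ∈ Ideal.span (Set.range w) := by
      have e1 : Matrix.vecMul w' (evm c G) = Pi.single 0 1 := by
        rw [hw', Matrix.vecMul_vecMul, hG'G2, Matrix.vecMul_one]
      have e2 : io s (Matrix.vecMul w M1 0) = io s (C (ν ^ K)) := by
        have e := congrFun (map_vecMul (io s) w M1) 0
        rw [← e, hM1, Matrix.vecMul_smul]
        have e3 : (fun i => io s (w i)) = w' := funext hww
        rw [e3, e1]
        simp
      rw [← hinj e2]
      exact vecMul_mem_span w M1 0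
    intro x hx
    have hFx : C (F ^ K) * (C F * x) ∈ Ideal.span (Set.range w) := by
      have h1 := h x hx
      have h2 : ∀ y ∈ Ideal.span (Set.range v), C (F ^ K) * y ∈ Ideal.span (Set.range w) := by
        intro y hy
        induction hy using Submodule.span_induction with
        | mem y hy =>
          obtain ⟨i, rfl⟩ := hy
          exact hFv i
        | zero => rw [mul_zero]; exact Ideal.zero_mem _
        | add y z _ _ h3 h4 => rw [mul_add]; exact Ideal.add_mem _ h3 h4
        | smul d y _ h3 =>
          rw [smul_eq_mul, ← mul_assoc, mul_comm (C (F ^ K)), mul_assoc]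
          exact Ideal.mul_mem_left _ _ h3
      exact h2 _ h1
    have hcop2 : IsCoprime (F ^ K * F) (ν ^ K) := by
      have h1 : IsCoprime F ν := ⟨1, -1, by rw [hF]; ring⟩
      rw [← pow_succ]
      exact IsCoprime.pow h1
    obtain ⟨a', b', hab'⟩ := hcop2
    have e : x = C a' * (C (F ^ K) * (C F * x)) + C b' * x * C (ν ^ K) := by
      have e := congrArg (fun z => (C z : R[X])) hab'
      simp only [C_add, C_mul, C_1] at e
      linear_combination (-x) * e
    rw [e]
    exact Ideal.add_mem _ (Ideal.mul_mem_left _ _ hFx) (Ideal.mul_mem_left _ _ hνw)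

end Pool.Agent.H71.AAE
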